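import Pool.Agent.Helper98.GX.St3

/-! # Project GX, module EQ2: consequences of equality, part 2 -/

set_option autoImplicit false

open scoped BigOperators

namespace Pool.Agent.Helper48.GX

open Pool.Agent.Helper98.GX
open Pool.Agent.Helper53.CX (DivVal LinSys IsNefCartier)

/-- the chain of inequalities -/
private theorem core {α ι : Type} [Fintype ι] [DecidableEq α] (F F' Y : Finset α) (lam om : α → ℝ)
    (β : α → ℝ) (b Λ : ι → ℝ) (N : ℝ) (hF : F ⊆ F') (hY : Y ⊆ F')
    (hlam : ∀ q ∈ F', 1 ≤ lam q) (hlamY : ∀ q ∈ Y, lam q = 1) (hβ : ∀ q ∈ F', 0 ≤ β q)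
    (hb : ∀ i, 0 ≤ b i) (hΛ : ∀ i, 1 ≤ Λ i) (hom : ∀ q ∈ Y, -1 ≤ om q)
    (hom' : ∀ q ∈ F', q ∉ Y → 0 ≤ om q)
    (hid : ∑ q ∈ F', lam q * β q = -∑ q ∈ F', lam q * om q - ∑ i, b i * Λ i)
    (hN : N ≤ ∑ q ∈ F, β q + ∑ i, b i) (hcard : (Y.card : ℝ) ≤ N) :
    (Y.card : ℝ) = N ∧ (∀ q ∈ F', 0 < β q → lam q = 1) ∧ (∀ i, 0 < b i → Λ i = 1) ∧
    (∀ q ∈ Y, om q = -1) ∧ ∀ q ∈ F', q ∉ Y → om q = 0 := by
  have h1 : ∑ q ∈ F, β q ≤ ∑ q ∈ F', β q :=
    Finset.sum_le_sum_of_subset_of_nonneg hF fun q hq _ => hβ q hq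
  have h2 : ∑ q ∈ F', (lam q - 1) * β q = ∑ q ∈ F', lam q * β q - ∑ q ∈ F', β q := by
    rw [← Finset.sum_sub_distrib]
    exact Finset.sum_congr rfl fun q _ => by ring
  have h3 : ∑ i, b i * (Λ i - 1) = ∑ i, b i * Λ i - ∑ i, b i := by
    rw [← Finset.sum_sub_distrib]
    exact Finset.sum_congr rfl fun i _ => by ring
  have h4 : ∑ q ∈ F', lam q * om q = ∑ q ∈ F' \ Y, lam q * om q + ∑ q ∈ Y, lam q * om q :=
    (Finset.sum_sdiff hY).symm
  have h5 : ∑ q ∈ Y, lam q * om q = ∑ q ∈ Y, (om q + 1) - Y.card := by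
    rw [Finset.sum_add_distrib, Finset.sum_const, nsmul_eq_mul, mul_one, add_sub_cancel_right]
    exact Finset.sum_congr rfl fun q hq => by rw [hlamY q hq, one_mul]
  have n1 : ∀ q ∈ F', 0 ≤ (lam q - 1) * β q := fun q hq =>
    mul_nonneg (by linarith [hlam q hq]) (hβ q hq)
  have n2 : ∀ i ∈ (Finset.univ : Finset ι), 0 ≤ b i * (Λ i - 1) := fun i _ =>
    mul_nonneg (hb i) (by linarith [hΛ i])
  have n3 : ∀ q ∈ F' \ Y, 0 ≤ lam q * om q := fun q hq => by
    have := Finset.mem_sdiff.1 hq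
    exact mul_nonneg (by linarith [hlam q this.1]) (hom' q this.1 this.2)
  have n4 : ∀ q ∈ Y, 0 ≤ om q + 1 := fun q hq => by linarith [hom q hq]
  have s1 := Finset.sum_nonneg n1
  have s2 := Finset.sum_nonneg n2
  have s3 := Finset.sum_nonneg n3
  have s4 := Finset.sum_nonneg n4
  have z1 : ∑ q ∈ F', (lam q - 1) * β q = 0 := by linarith
  have z2 : ∑ i, b i * (Λ i - 1) = 0 := by linarith
  have z3 : ∑ q ∈ F' \ Y, lam q * om q = 0 := by linarith
  have z4 : ∑ q ∈ Y, (om q + 1) = 0 := by linarith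
  refine ⟨by linarith, ?_, ?_, ?_, ?_⟩
  · intro q hq hpos
    have h := (Finset.sum_eq_zero_iff_of_nonneg n1).1 z1 q hq
    rcases mul_eq_zero.1 h with h | h
    · linarith
    · linarith
  · intro i hpos
    have h := (Finset.sum_eq_zero_iff_of_nonneg n2).1 z2 i (Finset.mem_univ i)
    rcases mul_eq_zero.1 h with h | h
    · linarith
    · linarith
  · intro q hq
    have h := (Finset.sum_eq_zero_iff_of_nonneg n4).1 z4 q hq
    linarith
  · intro q hq hqY
    have h := (Finset.sum_eq_zero_iff_of_nonneg n3).1 z3 q (Finset.mem_sdiff.2 ⟨hq, hqY⟩)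
    rcases mul_eq_zero.1 h with h | h
    · linarith [hlam q hq]
    · exact h

/-- a finite sum over the primes -/
private theorem conv {α : Type} {s : Set α} {F : Finset α} (hF : (F : Set α) ⊆ s) (f : α → ℤ)
    (h : ∀ q ∈ s, q ∉ F → f q = 0) : ∑ᶠ q ∈ s, f q = ∑ q ∈ F, f q := by
  apply finsum_mem_eq_sum_of_inter_support_eq
  ext q
  simp only [Set.mem_inter_iff, Function.mem_support, Finset.mem_coe]
  constructor
  · rintro ⟨h1, h2⟩
    refine ⟨?_, h2⟩
    by_contra h3
    exact h2 (h q h1 h3)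
  · rintro ⟨h1, h2⟩
    exact ⟨hF h1, h2⟩

section

variable {K : Type} [Field K] [Algebra ℂ K]

private theorem ord_div (v : DivVal K) {g g' : K} (hg : g ≠ 0) (hg' : g' ≠ 0) :
    v.ord (g / g') = v.ord g - v.ord g' := by
  have h := v.ord_mul g' (g / g') hg' (div_ne_zero hg hg')
  rw [mul_div_cancel₀ g hg'] at h
  omega

private theorem le_div (F : LinSys K) (v : DivVal K) {h : K} (hh : h ∈ F.gens) :
    -v.ord h ≤ F.div v :=
  Finset.le_sup' (fun f => -v.ord f) hh

/-- the divisor of a section of `H k` is one prime of total degree one -/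
private theorem exists_prime (hFSP : StFSP) (hCBD : StCBD) {V : NormalProj K} {r : ℕ}
    (B : ClassBasis V r) (k : Fin r) (g : K) (hg : g ∈ (B.H k).gens) :
    ∃ p : DivVal K, p ∈ V.primes ∧ ∑ l, B.deg p l = 1 ∧ p.ord g + (B.H k).div p = 1 ∧
      ∀ q ∈ V.primes, q ≠ p → q.ord g + (B.H k).div q = 0 := by
  classical
  have hg0 : g ≠ 0 := (B.H k).ne_zero g hg
  have hfin := (hFSP K V g hg0).union ((hCBD K V r B).2.1 k)
  set F : Finset (DivVal K) := hfin.toFinset with hF
  have hmem : ∀ p, p ∈ F ↔ p ∈ V.primes ∧ (p.ord g ≠ 0 ∨ (B.H k).div p ≠ 0) := by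
    intro p
    rw [hF, Set.Finite.mem_toFinset]
    constructor
    · rintro (⟨h1, h2⟩ | ⟨h1, h2⟩)
      · exact ⟨h1, Or.inl h2⟩
      · exact ⟨h1, Or.inr h2⟩
    · rintro ⟨h1, h2 | h2⟩
      · exact Or.inl ⟨h1, h2⟩
      · exact Or.inr ⟨h1, h2⟩
  have hFs : (F : Set (DivVal K)) ⊆ V.primes := fun p hp => ((hmem p).1 hp).1
  have hout : ∀ p ∈ V.primes, p ∉ F → p.ord g = 0 ∧ (B.H k).div p = 0 := by
    intro p hp hpF
    rw [hmem] at hpF
    push Not at hpF
    exact hpF hp
  -- the degrees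
  have d1 : ∀ l, ∑ p ∈ F, (B.deg p l : ℤ) * p.ord g = 0 := by
    intro l
    rw [← conv hFs (fun p => (B.deg p l : ℤ) * p.ord g) fun p hp hpF => by
      rw [(hout p hp hpF).1, mul_zero]]
    exact (hCBD K V r B).1 g hg0 l
  have d2 : ∀ l, ∑ p ∈ F, (B.deg p l : ℤ) * (B.H k).div p = if k = l then 1 else 0 := by
    intro l
    rw [← conv hFs (fun p => (B.deg p l : ℤ) * (B.H k).div p) fun p hp hpF => by
      rw [(hout p hp hpF).2, mul_zero]]
    by_cases h : k = l
    · subst h
      rw [if_pos rfl]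
      exact (hCBD K V r B).2.2.1 k
    · rw [if_neg h]
      exact (hCBD K V r B).2.2.2 k l h
  have d3 : ∑ p ∈ F, (∑ l, (B.deg p l : ℤ)) * (p.ord g + (B.H k).div p) = 1 := by
    have e : ∀ p : DivVal K, (∑ l, (B.deg p l : ℤ)) * (p.ord g + (B.H k).div p) =
        ∑ l, ((B.deg p l : ℤ) * p.ord g + (B.deg p l : ℤ) * (B.H k).div p) := by
      intro p
      rw [Finset.sum_mul]
      exact Finset.sum_congr rfl fun l _ => by ring
    rw [Finset.sum_congr rfl fun p _ => e p, Finset.sum_comm]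
    have e2 : ∀ l : Fin r, ∑ p ∈ F, ((B.deg p l : ℤ) * p.ord g + (B.deg p l : ℤ) * (B.H k).div p) =
        if k = l then 1 else 0 := by
      intro l
      rw [Finset.sum_add_distrib, d1, d2, zero_add]
    rw [Finset.sum_congr rfl fun l _ => e2 l, Finset.sum_ite_eq Finset.univ k,
      if_pos (Finset.mem_univ k)]
  have hD : ∀ p : DivVal K, 0 ≤ p.ord g + (B.H k).div p := by
    intro p
    have := le_div (B.H k) p hg
    omega
  have hdeg : ∀ p ∈ F, 1 ≤ ∑ l, (B.deg p l : ℤ) := by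
    intro p hp
    have := B.deg_pos p ((hmem p).1 hp).1
    exact_mod_cast this
  have hnn : ∀ p ∈ F, 0 ≤ (∑ l, (B.deg p l : ℤ)) * (p.ord g + (B.H k).div p) := fun p hp =>
    mul_nonneg (by have := hdeg p hp; omega) (hD p)
  obtain ⟨p, hpF, hp0⟩ : ∃ p ∈ F, p.ord g + (B.H k).div p ≠ 0 := by
    by_contra hc
    push Not at hc
    rw [Finset.sum_eq_zero fun p hp => by rw [hc p hp, mul_zero]] at d3
    exact zero_ne_one d3
  have hDp : 1 ≤ p.ord g + (B.H k).div p := by
    have := hD p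
    omega
  have hterm : 1 ≤ (∑ l, (B.deg p l : ℤ)) * (p.ord g + (B.H k).div p) := by
    have h1 := hdeg p hpF
    nlinarith
  have hsplit := Finset.add_sum_erase F
    (fun p => (∑ l, (B.deg p l : ℤ)) * (p.ord g + (B.H k).div p)) hpF
  rw [d3] at hsplit
  have hrest : 0 ≤ ∑ q ∈ F.erase p, (∑ l, (B.deg q l : ℤ)) * (q.ord g + (B.H k).div q) :=
    Finset.sum_nonneg fun q hq => hnn q (Finset.mem_of_mem_erase hq)
  have hterm1 : (∑ l, (B.deg p l : ℤ)) * (p.ord g + (B.H k).div p) = 1 := by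
    omega
  have hrest0 : ∑ q ∈ F.erase p, (∑ l, (B.deg q l : ℤ)) * (q.ord g + (B.H k).div q) = 0 := by
    omega
  refine ⟨p, hFs hpF, ?_, ?_, ?_⟩
  · have h1 := hdeg p hpF
    have h2 : ∑ l, (B.deg p l : ℤ) = 1 := by nlinarith
    exact_mod_cast h2
  · have h1 := hdeg p hpF
    nlinarith
  · intro q hq hqp
    by_cases hqF : q ∈ F
    · have h0 := (Finset.sum_eq_zero_iff_of_nonneg fun q hq => hnn q (Finset.mem_of_mem_erase hq)).1
        hrest0 q (Finset.mem_erase.2 ⟨hqp, hqF⟩)
      rcases mul_eq_zero.1 h0 with h | h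
      · have := hdeg q hqF
        omega
      · exact h
    · have := hout q hq hqF
      omega

/-- the identity for large finite sets of primes -/
private theorem ident {V : NormalProj K} (E : VertexVal V) (hκ : E.κ = 0) {n : ℕ}
    (L : LogCoord K n) {ι : Type} [Fintype ι] (p : PairData K ι) (F : Finset (DivVal K))
    (hFs : (F : Set (DivVal K)) ⊆ V.primes)
    (hout : ∀ q ∈ V.primes, q ∉ F → ∀ f ∈ p.g.support, q.ord f = 0) :
    ∑ q ∈ F, (E.lam q : ℝ) * p.B L q = -∑ q ∈ F, (E.lam q : ℝ) * (ordOmega L q : ℝ) -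
      ∑ i, p.b i * ∑ q ∈ F, (E.lam q : ℝ) * (p.M i q : ℝ) := by
  classical
  have hG : ∀ f ∈ p.g.support, ∑ q ∈ F, (E.lam q : ℤ) * q.ord f = 0 := by
    intro f hf
    by_cases hf0 : f = 0
    · subst hf0
      exact Finset.sum_eq_zero fun q _ => by rw [q.ord_zero, mul_zero]
    · have h := E.lin f hf0
      rw [hκ, Nat.cast_zero, zero_mul] at h
      rw [← h]
      exact (conv hFs _ fun q hq hqF => by rw [hout q hq hqF f hf, mul_zero]).symm
  have hR : ∑ q ∈ F, (E.lam q : ℝ) * rdiv p.g q = 0 := by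
    have hrd : ∀ q : DivVal K, rdiv p.g q = ∑ f ∈ p.g.support, p.g f * (q.ord f : ℝ) :=
      fun q => rfl
    rw [Finset.sum_congr rfl fun q _ => by rw [hrd q, Finset.mul_sum], Finset.sum_comm]
    refine Finset.sum_eq_zero fun f hf => ?_
    have h1 : ∑ q ∈ F, (E.lam q : ℝ) * (q.ord f : ℝ) = 0 := by
      exact_mod_cast hG f hf
    calc ∑ q ∈ F, (E.lam q : ℝ) * (p.g f * (q.ord f : ℝ))
        = p.g f * ∑ q ∈ F, (E.lam q : ℝ) * (q.ord f : ℝ) := by
          rw [Finset.mul_sum]
          exact Finset.sum_congr rfl fun q _ => by ring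
      _ = 0 := by rw [h1, mul_zero]
  have h3 : ∑ i, p.b i * ∑ q ∈ F, (E.lam q : ℝ) * (p.M i q : ℝ) =
      ∑ q ∈ F, (E.lam q : ℝ) * ∑ i, p.b i * (p.M i q : ℝ) := by
    simp_rw [Finset.mul_sum]
    rw [Finset.sum_comm]
    refine Finset.sum_congr rfl fun q _ => Finset.sum_congr rfl fun i _ => ?_
    ring
  have h4 : ∑ q ∈ F, (E.lam q : ℝ) * p.B L q =
      ∑ q ∈ F, (E.lam q : ℝ) * rdiv p.g q - ∑ q ∈ F, (E.lam q : ℝ) * (ordOmega L q : ℝ) -
        ∑ q ∈ F, (E.lam q : ℝ) * ∑ i, p.b i * (p.M i q : ℝ) := by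
    rw [← Finset.sum_sub_distrib, ← Finset.sum_sub_distrib]
    refine Finset.sum_congr rfl fun q _ => ?_
    unfold PairData.B
    ring
  rw [h4, h3, hR, zero_sub]

/-- if there are no divisorial valuations every b-divisor is pseudo-effective -/
private theorem psef_of_empty [IsEmpty (DivVal K)] (N : DivVal K → ℤ) : IsPseudoEffective N :=
  ⟨⟨{1}, Finset.singleton_nonempty 1, fun f hf => by
      rw [Finset.mem_singleton] at hf
      rw [hf]
      exact one_ne_zero⟩,
    fun _ _ => ⟨1, 1, le_refl 1, one_ne_zero, fun v => isEmptyElim v⟩⟩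

end

/-- EQ2. -/
theorem hEQ2 (hFSP : StFSP) (hLAM : StLAM) (hJLB : StJLB) (hCBD : StCBD) (hCBV : StCBV) :
    StEQ2 := by
  classical
  intro K _ _ n L V0 r B SC hne ι _ S p hp hS F hF hF0 hsum
  rcases isEmpty_or_nonempty (DivVal K) with hemp | hnon
  · -- no divisorial valuations
    have hι : IsEmpty ι := ⟨fun i => hp.nontrivial i (psef_of_empty _)⟩
    have hFe : F = ∅ := Finset.eq_empty_of_isEmpty F
    rw [hFe, Finset.sum_empty, Finset.univ_eq_empty, Finset.sum_empty, add_zero] at hsum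
    have hnr : n + r ≤ 0 := by exact_mod_cast hsum
    obtain rfl : n = 0 := by omega
    obtain rfl : r = 0 := by omega
    refine ⟨⟨⟨fun a => Fin.elim0 a, fun a => Fin.elim0 a, fun a => Fin.elim0 a,
      fun a => Fin.elim0 a, fun a => Fin.elim0 a, fun a => Fin.elim0 a, fun a => Fin.elim0 a,
      fun a => Fin.elim0 a, fun a => Fin.elim0 a, fun a => Fin.elim0 a, fun a => Fin.elim0 a,
      fun q => isEmptyElim q⟩⟩, fun q => isEmptyElim q, fun i => isEmptyElim i⟩
  · obtain ⟨w⟩ := hnon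
    obtain ⟨E, hκ, -, hlam⟩ := hCBV K V0 r B w
    -- the primes of the sections
    have hex : ∀ x : (Σ _ : Fin r, K), ∃ q : DivVal K, x.2 ∈ (B.H x.1).gens →
        (q ∈ V0.primes ∧ ∑ l, B.deg q l = 1 ∧ q.ord x.2 + (B.H x.1).div q = 1 ∧
          ∀ q' ∈ V0.primes, q' ≠ q → q'.ord x.2 + (B.H x.1).div q' = 0) := by
      intro x
      by_cases hx : x.2 ∈ (B.H x.1).gens
      · obtain ⟨q, hq⟩ := exists_prime hFSP hCBD B x.1 x.2 hx
        exact ⟨q, fun _ => hq⟩
      · exact ⟨w, fun h => absurd h hx⟩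
    choose P hP using hex
    set T : Finset (Σ _ : Fin r, K) := Finset.univ.sigma SC.s with hT
    have hTm : ∀ x : (Σ _ : Fin r, K), x ∈ T → x.2 ∈ (B.H x.1).gens := by
      intro x hx
      rw [hT, Finset.mem_sigma] at hx
      exact SC.sub x.1 x.2 hx.2
    have hTc : T.card ≤ n + r := by
      rw [hT, Finset.card_sigma]
      exact SC.card_le
    set Y : Finset (DivVal K) := T.image P with hY
    have hYp : (Y : Set (DivVal K)) ⊆ V0.primes := by
      intro q hq
      have hq' : q ∈ Y := hq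
      rw [hY, Finset.mem_image] at hq'
      obtain ⟨x, hx, rfl⟩ := hq'
      exact (hP x (hTm x hx)).1
    have hYc : Y.card ≤ T.card := Finset.card_image_le
    have hYlam : ∀ q ∈ Y, E.lam q = 1 := by
      intro q hq
      rw [hY, Finset.mem_image] at hq
      obtain ⟨x, hx, rfl⟩ := hq
      rw [hlam]
      exact (hP x (hTm x hx)).2.1
    have hYz : ∀ q ∈ V0.primes, q ∉ Y → ∀ j, q.ord (L.z j) = 0 := by
      intro q hq hqY j
      obtain ⟨k, g, hg, g', hg', hz⟩ := SC.ratio j
      have hx1 : (⟨k, g⟩ : (Σ _ : Fin r, K)) ∈ T := by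
        rw [hT, Finset.mem_sigma]
        exact ⟨Finset.mem_univ _, hg⟩
      have hx2 : (⟨k, g'⟩ : (Σ _ : Fin r, K)) ∈ T := by
        rw [hT, Finset.mem_sigma]
        exact ⟨Finset.mem_univ _, hg'⟩
      have hn1 : q ≠ P ⟨k, g⟩ := by
        rintro rfl
        exact hqY (Finset.mem_image_of_mem P hx1)
      have hn2 : q ≠ P ⟨k, g'⟩ := by
        rintro rfl
        exact hqY (Finset.mem_image_of_mem P hx2)
      have e1 := (hP _ (hTm _ hx1)).2.2.2 q hq hn1
      have e2 := (hP _ (hTm _ hx2)).2.2.2 q hq hn2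
      have e1' : q.ord g + (B.H k).div q = 0 := e1
      have e2' : q.ord g' + (B.H k).div q = 0 := e2
      rw [hz, ord_div q ((B.H k).ne_zero g (SC.sub k g hg))
        ((B.H k).ne_zero g' (SC.sub k g' hg'))]
      omega
    have hB0 : ∀ q ∈ V0.primes, 0 ≤ p.B L q := by
      intro q hq
      rcases hS q hq with h | h
      · exact hp.effective q h
      · rw [h]; norm_num
    -- the exceptional set
    set X : Set (DivVal K) := {q | q ∈ V0.primes ∧ ((∃ f ∈ p.g.support, f ≠ 0 ∧ q.ord f ≠ 0) ∨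
      (∃ i, p.M i q ≠ 0))} with hX
    have hXfin : X.Finite := by
      have h1 : (⋃ f ∈ p.g.support, {q : DivVal K | f ≠ 0 ∧ q ∈ V0.primes ∧ q.ord f ≠ 0}).Finite := by
        refine Set.Finite.biUnion p.g.support.finite_toSet fun f _ => ?_
        by_cases hf : f = 0
        · subst hf
          simp
        · exact (E.finite f hf).subset fun q hq => hq.2
      have h2 : (⋃ i, {q : DivVal K | q ∈ V0.primes ∧ p.M i q ≠ 0}).Finite :=
        Set.finite_iUnion fun i => (hLAM K V0 E (p.M i) (hp.nef i) (hp.nontrivial i)).1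
      refine (h1.union h2).subset ?_
      rintro q ⟨hq, ⟨f, hf, hf0, hfq⟩ | ⟨i, hi⟩⟩
      · refine Or.inl ?_
        simp only [Set.mem_iUnion]
        exact ⟨f, hf, hf0, hq, hfq⟩
      · refine Or.inr ?_
        simp only [Set.mem_iUnion]
        exact ⟨i, hq, hi⟩
    -- the main step
    have main : ∀ G : Finset (DivVal K), (G : Set (DivVal K)) ⊆ V0.primes →
        ((Y.card : ℝ) = ((n + r : ℕ) : ℝ) ∧ (∀ q ∈ G, 0 < p.B L q → E.lam q = 1) ∧
        (∀ i, 0 < p.b i → ∑ᶠ q ∈ V0.primes, (E.lam q : ℤ) * p.M i q = 1) ∧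
        (∀ q ∈ Y, ordOmega L q = -1) ∧ ∀ q ∈ G, q ∉ Y → ordOmega L q = 0) := by
      intro G hG
      set F' : Finset (DivVal K) := hXfin.toFinset ∪ F ∪ Y ∪ G with hF'
      have hF's : (F' : Set (DivVal K)) ⊆ V0.primes := by
        intro q hq
        have hq' : q ∈ F' := hq
        rw [hF', Finset.mem_union, Finset.mem_union, Finset.mem_union,
          Set.Finite.mem_toFinset] at hq'
        rcases hq' with ((h | h) | h) | h
        · exact h.1
        · exact hF h
        · exact hYp h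
        · exact hG h
      have hout : ∀ q ∈ V0.primes, q ∉ F' → (∀ f ∈ p.g.support, q.ord f = 0) ∧
          ∀ i, p.M i q = 0 := by
        intro q hq hqF
        have hqX : q ∉ X := by
          intro h
          apply hqF
          rw [hF', Finset.mem_union, Finset.mem_union, Finset.mem_union,
            Set.Finite.mem_toFinset]
          exact Or.inl (Or.inl (Or.inl h))
        refine ⟨?_, ?_⟩
        · intro f hf
          by_contra h
          by_cases hf0 : f = 0
          · rw [hf0, q.ord_zero] at h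
            exact h rfl
          · exact hqX ⟨hq, Or.inl ⟨f, hf, hf0, h⟩⟩
        · intro i
          by_contra h
          exact hqX ⟨hq, Or.inr ⟨i, h⟩⟩
      have hid := ident E hκ L p F' hF's fun q hq hqF => (hout q hq hqF).1
      have hMconv : ∀ i, ∑ᶠ q ∈ V0.primes, (E.lam q : ℤ) * p.M i q =
          ∑ q ∈ F', (E.lam q : ℤ) * p.M i q := fun i =>
        conv hF's _ fun q hq hqF => by rw [(hout q hq hqF).2 i, mul_zero]
      have hM : ∀ i, 1 ≤ ∑ q ∈ F', (E.lam q : ℤ) * p.M i q := by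
        intro i
        have h1 := (hLAM K V0 E (p.M i) (hp.nef i) (hp.nontrivial i)).2
        rw [hMconv i, hκ, Nat.cast_zero, zero_mul, sub_zero] at h1
        exact h1
      have hsub1 : F ⊆ F' := by
        intro q hq
        rw [hF', Finset.mem_union, Finset.mem_union, Finset.mem_union]
        exact Or.inl (Or.inl (Or.inr hq))
      have hsub2 : Y ⊆ F' := by
        intro q hq
        rw [hF', Finset.mem_union, Finset.mem_union]
        exact Or.inl (Or.inr hq)
      have hsub3 : G ⊆ F' := by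
        intro q hq
        rw [hF', Finset.mem_union]
        exact Or.inr hq
      have key := core F F' Y (fun q => (E.lam q : ℝ)) (fun q => (ordOmega L q : ℝ))
        (fun q => p.B L q) p.b (fun i => ∑ q ∈ F', (E.lam q : ℝ) * (p.M i q : ℝ))
        ((n + r : ℕ) : ℝ) hsub1 hsub2
        (fun q hq => by
          show (1 : ℝ) ≤ (E.lam q : ℝ)
          exact_mod_cast E.one_le q (hF's hq))
        (fun q hq => by
          show (E.lam q : ℝ) = 1
          rw [hYlam q hq, Nat.cast_one])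
        (fun q hq => hB0 q (hF's hq)) hp.b_nonneg
        (fun i => by
          show (1 : ℝ) ≤ ∑ q ∈ F', (E.lam q : ℝ) * (p.M i q : ℝ)
          exact_mod_cast hM i)
        (fun q _ => by
          show (-1 : ℝ) ≤ (ordOmega L q : ℝ)
          exact_mod_cast (hJLB K n L q).1)
        (fun q hq hqY => by
          show (0 : ℝ) ≤ (ordOmega L q : ℝ)
          exact_mod_cast (hJLB K n L q).2 (hYz q (hF's hq) hqY))
        hid
        (by
          rw [Nat.cast_add]
          exact hsum)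
        (by exact_mod_cast hYc.trans hTc)
      obtain ⟨k1, k2, k3, k4, k5⟩ := key
      refine ⟨k1, ?_, ?_, ?_, ?_⟩
      · intro q hq hpos
        exact_mod_cast k2 q (hsub3 hq) hpos
      · intro i hi
        rw [hMconv i]
        exact_mod_cast k3 i hi
      · intro q hq
        exact_mod_cast k4 q hq
      · intro q hq hqY
        exact_mod_cast k5 q (hsub3 hq) hqY
    have main0 := main ∅ (by simp)
    have hYcard : Y.card = n + r := by exact_mod_cast main0.1
    have hTcard : T.card = n + r := le_antisymm hTc (hYcard ▸ hYc)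
    have hinj : Set.InjOn P (T : Set (Σ _ : Fin r, K)) := by
      rw [← Finset.card_image_iff, ← hY, hYcard, hTcard]
    let e : T ≃ Fin (n + r) := T.equivFinOfCardEq hTcard
    have hmem : ∀ a, ((e.symm a : T) : (Σ _ : Fin r, K)) ∈ T := fun a => (e.symm a).2
    refine ⟨⟨{
      bl := fun a => ((e.symm a : T) : (Σ _ : Fin r, K)).1
      g := fun a => ((e.symm a : T) : (Σ _ : Fin r, K)).2
      pr := fun a => P (e.symm a : T)
      ne := fun a => (B.H _).ne_zero _ (hTm _ (hmem a))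
      pr_mem := fun a => (hP _ (hTm _ (hmem a))).1
      pr_inj := ?_
      div_self := fun a => (hP _ (hTm _ (hmem a))).2.2.1
      div_other := fun a => (hP _ (hTm _ (hmem a))).2.2.2
      surj := ?_
      ratio := ?_
      omega_pr := fun a => main0.2.2.2.1 _ (Finset.mem_image_of_mem P (hmem a))
      omega_other := ?_ }⟩, ?_, ?_⟩
    · intro a a' h
      have h1 := hinj (hmem a) (hmem a') h
      exact e.symm.injective (Subtype.ext h1)
    · intro k
      obtain ⟨g, hg⟩ := hne k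
      have hx : (⟨k, g⟩ : (Σ _ : Fin r, K)) ∈ T := by
        rw [hT, Finset.mem_sigma]
        exact ⟨Finset.mem_univ _, hg⟩
      refine ⟨e ⟨⟨k, g⟩, hx⟩, ?_⟩
      simp only [Equiv.symm_apply_apply]
    · intro j
      obtain ⟨k, g, hg, g', hg', hz⟩ := SC.ratio j
      have hx1 : (⟨k, g⟩ : (Σ _ : Fin r, K)) ∈ T := by
        rw [hT, Finset.mem_sigma]
        exact ⟨Finset.mem_univ _, hg⟩
      have hx2 : (⟨k, g'⟩ : (Σ _ : Fin r, K)) ∈ T := by
        rw [hT, Finset.mem_sigma]
        exact ⟨Finset.mem_univ _, hg'⟩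
      refine ⟨e ⟨⟨k, g⟩, hx1⟩, e ⟨⟨k, g'⟩, hx2⟩, ?_, ?_⟩
      · simp only [Equiv.symm_apply_apply]
      · simp only [Equiv.symm_apply_apply]
        exact hz
    · intro q hq hqa
      have hqY : q ∉ Y := by
        intro h
        rw [hY, Finset.mem_image] at h
        obtain ⟨x, hx, hxq⟩ := h
        apply hqa (e ⟨x, hx⟩)
        simp only [Equiv.symm_apply_apply]
        exact hxq.symm
      exact (main {q} (by simpa using hq)).2.2.2.2 q (Finset.mem_singleton_self q) hqY
    · intro q hq hpos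
      have h := (main {q} (by simpa using hq)).2.1 q (Finset.mem_singleton_self q) hpos
      rw [hlam] at h
      exact h
    · intro i hi
      have h := main0.2.2.1 i hi
      rw [← h]
      refine finsum_congr fun q => finsum_congr fun _ => ?_
      rw [hlam]
      push_cast
      rfl

end Pool.Agent.Helper48.GX
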